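import Pool.Agent.SHA.StmtsB

/-!
# B_LIC (MP_65fb70_co): reduction to finite numbers
-/

set_option autoImplicit false

open Filter Topology

namespace Pool.Agent.SHA.H19

open Pool.Agent.SHA

/-- approximation of `n` by natural numbers -/
theorem approx (s : ℕ) (hs : 1 ≤ s) (n : ℕ∞) (hn : (s : ℕ∞) < n) :
    (0 ≤ ratio s n ∧ ratio s n < 1) ∧
    ∃ N : ℕ → ℕ, (∀ k, s < N k) ∧ (∀ k, (N k : ℕ∞) ≤ n) ∧
      Tendsto (fun k => ratio s (N k : ℕ∞)) atTop (𝓝 (ratio s n)) := by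
  by_cases ht : n = ⊤
  · subst ht
    refine ⟨by rw [ratio_top]; exact ⟨le_rfl, one_pos⟩, fun k => s + 1 + k,
      fun k => by show s < s + 1 + k; omega, fun k => le_top, ?_⟩
    rw [ratio_top]
    have h1 : Tendsto (fun k : ℕ => (s : ℝ) / ((k : ℝ))) atTop (𝓝 0) :=
      tendsto_const_div_atTop_nhds_zero_nat (s : ℝ)
    refine squeeze_zero' (Eventually.of_forall fun k => ?_) ?_ h1
    · rw [ratio_coe]
      positivity
    · filter_upwards [eventually_ge_atTop 1] with k hk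
      rw [ratio_coe]
      have hk' : (0 : ℝ) < k := by exact_mod_cast hk
      have hs' : (0 : ℝ) ≤ s := Nat.cast_nonneg s
      apply div_le_div_of_nonneg_left hs' hk'
      push_cast
      linarith
  · lift n to ℕ using ht
    have hn' : s < n := by exact_mod_cast hn
    have hn0 : (0 : ℝ) < n := by exact_mod_cast (by omega : 0 < n)
    refine ⟨?_, fun _ => n, fun _ => hn', fun _ => le_rfl, tendsto_const_nhds⟩
    rw [ratio_coe]
    refine ⟨by positivity, ?_⟩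
    rw [div_lt_one hn0]
    exact_mod_cast hn'

/-- B_LIC -/
theorem lic : LICStmt := by
  intro s n₁ n₂ φ c hs h1 h2 hφ h
  obtain ⟨⟨p1, q1⟩, N₁, a1, b1, c1⟩ := approx s hs n₁ h1
  obtain ⟨⟨p2, q2⟩, N₂, a2, b2, c2⟩ := approx s hs n₂ h2
  have hden : 1 - ratio s n₁ * ratio s n₂ ≠ 0 := by
    have : ratio s n₁ * ratio s n₂ < 1 := mul_lt_one_of_nonneg_of_lt_one_left p1 q1 q2.le
    linarith
  have e1 : Tendsto (fun k => (1 - ratio s (N₁ k : ℕ∞)) * (1 - ratio s (N₂ k : ℕ∞))) atTop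
      (𝓝 ((1 - ratio s n₁) * (1 - ratio s n₂))) :=
    (tendsto_const_nhds.sub c1).mul (tendsto_const_nhds.sub c2)
  have e2 : Tendsto (fun k => 1 - ratio s (N₁ k : ℕ∞) * ratio s (N₂ k : ℕ∞)) atTop
      (𝓝 (1 - ratio s n₁ * ratio s n₂)) :=
    tendsto_const_nhds.sub (c1.mul c2)
  have e3 : Tendsto (fun k => theta s (N₁ k : ℕ∞) (N₂ k : ℕ∞)) atTop (𝓝 (theta s n₁ n₂)) :=
    e1.div e2 hden
  have e4 : Tendsto (fun k => φ (theta s (N₁ k : ℕ∞) (N₂ k : ℕ∞))) atTop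
      (𝓝 (φ (theta s n₁ n₂))) := hφ.tendsto.comp e3
  exact le_of_tendsto' e4 (fun k => h _ _ (a1 k) (a2 k) (b1 k) (b2 k))

end Pool.Agent.SHA.H19
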